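import Pool.Agent.helper20.Sz.B1

/-! Module SZ-G1: number of circles after a surgery of type A or C; symmetry of chirality. -/

open scoped symmDiff

namespace Pool.Agent.helper20.Sz
namespace G1
variable {X E : Type} [DecidableEq X] {K : Cube X E} {eta : X → Bool}

open B1

/-- `p`, `r` are the two ends of the arc `c` -/
def Ends (K : Cube X E) (c : X) (p r : E) : Prop :=
  (p = K.tail c ∧ r = K.head c) ∨ (p = K.head c ∧ r = K.tail c)

theorem ends_nonloop (hK : K.IsCore) {v : Finset X} {c : X} {p r : E} (he : Ends K c p r) :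
    K.Loop v c ↔ K.same v p r := by
  rcases he with ⟨rfl, rfl⟩ | ⟨rfl, rfl⟩
  · exact Iff.rfl
  · exact ⟨fun h => symm hK h, fun h => symm hK h⟩

theorem merge' (hK : K.IsCore) {v : Finset X} {c : X} {p r : E} (he : Ends K c p r)
    (h : ¬ K.same v p r) (x y : E) : K.same (v ∆ {c}) x y ↔
    K.same v x y ∨ (K.same v x p ∧ K.same v r y) ∨ (K.same v x r ∧ K.same v p y) := by
  have hl : ¬ K.Loop v c := fun h' => h ((ends_nonloop hK he).1 h')
  have hm := hK.merge v c hl x y
  rcases he with ⟨rfl, rfl⟩ | ⟨rfl, rfl⟩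
  · exact hm
  · rw [hm]; tauto

omit [DecidableEq X] in
theorem exists_ends {c : X} {p : E} (h : p = K.tail c ∨ p = K.head c) : ∃ r, Ends K c p r := by
  rcases h with rfl | rfl
  · exact ⟨_, Or.inl ⟨rfl, rfl⟩⟩
  · exact ⟨_, Or.inr ⟨rfl, rfl⟩⟩

theorem sd_comm (v : Finset X) (a b : X) : (v ∆ {a}) ∆ {b} = (v ∆ {b}) ∆ {a} := by
  rw [symmDiff_assoc, symmDiff_assoc, symmDiff_comm ({a} : Finset X)]

/-- the arc `b` joins the same two circles as the pair of points `p`, `r` -/
def Joins (K : Cube X E) (v : Finset X) (b : X) (p r : E) : Prop :=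
  (K.same v (K.tail b) p ∧ K.same v (K.head b) r) ∨
    (K.same v (K.tail b) r ∧ K.same v (K.head b) p)

omit [DecidableEq X] in
theorem joins_of_ends {v : Finset X} {b c : X} {p r : E} (he : Ends K c p r)
    (h : (K.same v (K.tail b) (K.tail c) ∧ K.same v (K.head b) (K.head c)) ∨
    (K.same v (K.tail b) (K.head c) ∧ K.same v (K.head b) (K.tail c))) : Joins K v b p r := by
  rcases he with ⟨rfl, rfl⟩ | ⟨rfl, rfl⟩
  · exact h
  · rcases h with h | h
    · exact Or.inr h
    · exact Or.inl h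

/-- Two non-interleaved arcs `e`, `e'` on one circle: all arcs which are interleaved with
both of them join the same two circles after surgery along `e` and `e'`. -/
theorem two_chords [Finite E] (hK : K.IsCore) {v : Finset X} {e e' : X} (he : K.Loop v e)
    (he' : K.Loop v e') (hn : K.Loop (v ∆ {e}) e') (hn' : K.Loop (v ∆ {e'}) e)
    (hs : K.same v (K.tail e) (K.tail e')) :
    ∃ q r : E, ¬ K.same ((v ∆ {e}) ∆ {e'}) q r ∧ ∀ f : X, K.Loop v f →
      ¬ K.Loop (v ∆ {e}) f → ¬ K.Loop (v ∆ {e'}) f → Joins K ((v ∆ {e}) ∆ {e'}) f q r := by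
  set x := (v ∆ {e}) ∆ {e'} with hx
  have hx' : x = (v ∆ {e'}) ∆ {e} := by rw [hx, sd_comm]
  have hw : x ∆ {e'} = v ∆ {e} := by rw [hx, sd_cancel]
  have hw' : x ∆ {e} = v ∆ {e'} := by rw [hx', sd_cancel]
  -- nonloops
  have n1 : ¬ K.Loop x e' := by rw [hx]; exact hK.split _ _ hn
  have n2 : ¬ K.Loop x e := by rw [hx']; exact hK.split _ _ hn'
  have n3 : ¬ K.Loop (v ∆ {e}) e := hK.split _ _ he
  have n4 : ¬ K.Loop (v ∆ {e'}) e' := hK.split _ _ he'
  -- find the common circle
  obtain ⟨p', hp', h1⟩ : ∃ p', (p' = K.tail e' ∨ p' = K.head e') ∧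
      K.same (v ∆ {e'}) p' (K.tail e) := by
    have h2 := (hK.merge (v ∆ {e'}) e' n4 (K.tail e) (K.tail e')).1 (by rw [sd_cancel]; exact hs)
    rcases h2 with h2 | ⟨h2, _⟩ | ⟨h2, _⟩
    · exact ⟨_, Or.inl rfl, symm hK h2⟩
    · exact ⟨_, Or.inl rfl, symm hK h2⟩
    · exact ⟨_, Or.inr rfl, symm hK h2⟩
  obtain ⟨r, hr⟩ := exists_ends (K := K) hp'
  obtain ⟨p, hp, h3⟩ : ∃ p, (p = K.tail e ∨ p = K.head e) ∧ K.same x p' p := by
    have h2 := (hK.merge x e n2 p' (K.tail e)).1 (by rw [hw']; exact h1)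
    rcases h2 with h2 | ⟨h2, _⟩ | ⟨h2, _⟩
    · exact ⟨_, Or.inl rfl, h2⟩
    · exact ⟨_, Or.inl rfl, h2⟩
    · exact ⟨_, Or.inr rfl, h2⟩
  obtain ⟨q, hq⟩ := exists_ends (K := K) hp
  have m1 : ¬ K.same x p' r := fun h => n1 ((ends_nonloop hK hr).2 h)
  have m2 : ¬ K.same x p q := fun h => n2 ((ends_nonloop hK hq).2 h)
  have mw := merge' hK hr m1
  have mw' := merge' hK hq m2
  rw [hw] at mw
  rw [hw'] at mw'
  have m3 : ¬ K.same (v ∆ {e}) p q := fun h => n3 ((ends_nonloop hK hq).2 h)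
  have m4 : ¬ K.same (v ∆ {e'}) p' r := fun h => n4 ((ends_nonloop hK hr).2 h)
  have hqr : ¬ K.same x q r := by
    intro h
    exact m3 ((mw p q).2 (Or.inr (Or.inl ⟨symm hK h3, symm hK h⟩)))
  have hp'q : ¬ K.same x p' q := fun h => m2 (trans hK (symm hK h3) h)
  have hpr : ¬ K.same x p r := fun h => m1 (trans hK h3 h)
  have key1 : ∀ z, K.same (v ∆ {e}) z q → K.same x z q := by
    intro z hz
    rcases (mw z q).1 hz with h | ⟨_, h⟩ | ⟨_, h⟩
    · exact h
    · exact absurd (symm hK h) hqr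
    · exact absurd h hp'q
  have key2 : ∀ z, K.same (v ∆ {e'}) z r → K.same x z r := by
    intro z hz
    rcases (mw' z r).1 hz with h | ⟨_, h⟩ | ⟨_, h⟩
    · exact h
    · exact absurd h hqr
    · exact absurd h hpr
  refine ⟨q, r, hqr, fun f hf hf1 hf2 => ?_⟩
  have j1 : Joins K (v ∆ {e}) f p q :=
    joins_of_ends hq (join_of_loop hK n3 hf1 (by rw [sd_cancel]; exact hf))
  have j2 : Joins K (v ∆ {e'}) f p' r :=
    joins_of_ends hr (join_of_loop hK n4 hf2 (by rw [sd_cancel]; exact hf))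
  rcases j1 with ⟨_, a1⟩ | ⟨a1, _⟩ <;> rcases j2 with ⟨_, a2⟩ | ⟨a2, _⟩
  · exact absurd (trans hK (symm hK (key1 _ a1)) (key2 _ a2)) hqr
  · exact Or.inr ⟨key2 _ a2, key1 _ a1⟩
  · exact Or.inl ⟨key1 _ a1, key2 _ a2⟩
  · exact absurd (trans hK (symm hK (key1 _ a1)) (key2 _ a2)) hqr

variable [Finite E]

/-- arcs joining the same two circles (in any direction) -/
theorem num_join (hK : K.IsSys eta) {v G : Finset X} (hG : Hom v G) (hne : G.Nonempty)
    (h1 : ∀ c ∈ G, ¬ K.Loop v c)
    (h2 : ∀ c ∈ G, ∀ c' ∈ G,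
      (K.same v (K.tail c) (K.tail c') ∧ K.same v (K.head c) (K.head c')) ∨
      (K.same v (K.tail c) (K.head c') ∧ K.same v (K.head c) (K.tail c'))) :
    K.num (v ∆ G) + 2 = K.num v + G.card := by
  have hC := hK.toIsCore
  obtain ⟨c, hc⟩ := hne
  have h3 : K.num (v ∆ {c}) + 1 = K.num v := num_flip_nonloop hC (h1 c hc)
  have hcc : c ∉ G.erase c := Finset.notMem_erase c G
  have hloop : ∀ d ∈ G.erase c, K.Loop (v ∆ {c}) d := by
    intro d hd
    have hd' := Finset.mem_of_mem_erase hd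
    refine (hC.merge v c (h1 c hc) _ _).2 ?_
    rcases h2 d hd' c hc with ⟨a, b⟩ | ⟨a, b⟩
    · exact Or.inr (Or.inl ⟨a, symm hC b⟩)
    · exact Or.inr (Or.inr ⟨a, symm hC b⟩)
  have hmem : ∀ d ∈ G.erase c, (d ∈ v ∆ {c} ↔ d ∈ v) := by
    intro d hd
    have : d ≠ c := Finset.ne_of_mem_erase hd
    simp [Finset.mem_symmDiff, this]
  have hspl : K.Spl (v ∆ {c}) (G.erase c) := by
    refine spl_of_pairwise hC hloop ?_
    intro d hd d' hd' hne
    by_contra hcon
    have hd1 := Finset.mem_of_mem_erase hd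
    have hd1' := Finset.mem_of_mem_erase hd'
    refine hK.side1 (v ∆ {c}) d d' hne ?_ (hloop d hd) (hloop d' hd') hcon ?_
    · rw [hmem d hd, hmem d' hd']; exact hG d hd1 d' hd1'
    · exact hK.side2 v d d' (hG d hd1 d' hd1') (h1 d hd1) (h2 d hd1 d' hd1')
  have h4 : v ∆ G = (v ∆ {c}) ∆ G.erase c := by
    conv_lhs => rw [← Finset.insert_erase hc]
    rw [sd_insert _ _ hcc]
  have h5 : (G.erase c).card + 1 = G.card := Finset.card_erase_add_one hc
  unfold Cube.Spl at hspl
  rw [h4, hspl]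
  omega

omit [Finite E] in
theorem crs_ne {s0 : Bool} (hK : K.IsSys eta) {v : Finset X} {e f : X} (hef : e ≠ f)
    (hm : e ∈ v ↔ f ∈ v) (h : K.Crs s0 v e f) : eta f ≠ eta e :=
  hK.side1 v f e (fun h => hef h.symm) hm.symm h.2.1 h.1 h.2.2.1

theorem crs_swap_nonloop (hK : K.IsCore) {s0 : Bool} {v : Finset X} {e f : X}
    (h : K.Crs s0 v e f) : ¬ K.Loop (v ∆ {e}) f := by
  by_cases hef : e = f
  · subst hef; exact hK.split _ _ h.1
  · intro hl
    have a1 := num_flip_loop hK (v := v) (c := f) h.2.1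
    have a2 := num_flip_nonloop hK (v := v ∆ {f}) (c := e) h.2.2.1
    have a3 := num_flip_loop hK (v := v) (c := e) h.1
    have a4 := num_flip_loop hK hl
    rw [sd_comm] at a2
    omega

theorem crs_same (hK : K.IsCore) {s0 : Bool} {v : Finset X} {e f : X}
    (h : K.Crs s0 v e f) : K.same v (K.tail e) (K.tail f) := by
  have n := hK.split v f h.2.1
  have j := join_of_loop hK n h.2.2.1 (by rw [sd_cancel]; exact h.1)
  rcases j with ⟨a, _⟩ | ⟨a, _⟩
  · exact finer1 hK h.2.1 a
  · exact trans hK (finer1 hK h.2.1 a) (symm hK h.2.1)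

theorem num_AC (hK : K.IsSys eta) (s0 : Bool) : K.NumP s0 := by
  have hC := hK.toIsCore
  intro v G hG hAC
  rcases hAC with ⟨hne, a, b, hab, hg⟩ | ⟨A, B, rfl, hd, hA, hB, hc⟩
  · refine num_join hK hG hne ?_ ?_
    · intro c hc hl
      exact hab (trans hC (symm hC (hg c hc).1) (trans hC hl (hg c hc).2))
    · intro c hc c' hc'
      exact Or.inl ⟨trans hC (hg c hc).1 (symm hC (hg c' hc').1),
        trans hC (hg c hc).2 (symm hC (hg c' hc').2)⟩
  · -- two crossed bunches
    obtain ⟨e0, he0⟩ := hA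
    obtain ⟨f0, hf0⟩ := hB
    have hAB : ∀ e ∈ A, ∀ f ∈ B, e ≠ f := fun e he f hf h =>
      Finset.disjoint_left.1 hd he (h ▸ hf)
    have hm : ∀ x ∈ A ∪ B, ∀ y ∈ A ∪ B, (x ∈ v ↔ y ∈ v) := hG
    have etaB : ∀ f ∈ B, ∀ f' ∈ B, eta f = eta f' := by
      intro f hf f' hf'
      have h1 := crs_ne hK (hAB e0 he0 f hf)
        (hm _ (Finset.mem_union_left _ he0) _ (Finset.mem_union_right _ hf)) (hc e0 he0 f hf)
      have h2 := crs_ne hK (hAB e0 he0 f' hf')
        (hm _ (Finset.mem_union_left _ he0) _ (Finset.mem_union_right _ hf')) (hc e0 he0 f' hf')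
      revert h1 h2
      cases eta f <;> cases eta f' <;> cases eta e0 <;> simp
    have etaA : ∀ e ∈ A, ∀ e' ∈ A, eta e = eta e' := by
      intro e he e' he'
      have h1 := crs_ne hK (hAB e he f0 hf0)
        (hm _ (Finset.mem_union_left _ he) _ (Finset.mem_union_right _ hf0)) (hc e he f0 hf0)
      have h2 := crs_ne hK (hAB e' he' f0 hf0)
        (hm _ (Finset.mem_union_left _ he') _ (Finset.mem_union_right _ hf0)) (hc e' he' f0 hf0)
      revert h1 h2
      cases eta e <;> cases eta e' <;> cases eta f0 <;> simp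
    have splB : K.Spl v B := by
      refine spl_of_pairwise hC (fun f hf => (hc e0 he0 f hf).2.1) ?_
      intro f hf f' hf' hne
      by_contra hcon
      exact hK.side1 v f f' hne (hm _ (Finset.mem_union_right _ hf) _ (Finset.mem_union_right _ hf'))
        (hc e0 he0 f hf).2.1 (hc e0 he0 f' hf').2.1 hcon (etaB f hf f' hf')
    have loopA : ∀ e ∈ A, ∀ e' ∈ A, e ≠ e' → K.Loop (v ∆ {e}) e' := by
      intro e he e' he' hne
      by_contra hcon
      exact hK.side1 v e e' hne (hm _ (Finset.mem_union_left _ he) _ (Finset.mem_union_left _ he'))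
        (hc e he f0 hf0).1 (hc e' he' f0 hf0).1 hcon (etaA e he e' he')
    -- arcs of A at v ∆ B
    have nonA : ∀ e ∈ A, ¬ K.Loop (v ∆ B) e := by
      intro e he hl
      have h1 := (spl_iff hC (H := {f0}) (G := B) (by simpa using hf0)).1 splB
      have h2 := spl_finer hC h1.2 (K.tail e) (K.head e)
      rw [← sd_split v (H := {f0}) (G := B) (by simpa using hf0)] at h2
      exact (hc e he f0 hf0).2.2.1 (h2 hl)
    -- two arcs of A join the same circles at v ∆ B
    have hpair : ∀ e ∈ A, ∀ e' ∈ A, e ≠ e' → K.Loop ((v ∆ B) ∆ {e}) e' := by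
      intro e he e' he' hne
      by_contra hcon
      have hee : K.same v (K.tail e) (K.tail e') :=
        trans hC (crs_same hC (hc e he f0 hf0)) (symm hC (crs_same hC (hc e' he' f0 hf0)))
      obtain ⟨q, r, hqr, hj⟩ := two_chords hC (hc e he f0 hf0).1 (hc e' he' f0 hf0).1
        (loopA e he e' he' hne) (loopA e' he' e he (fun h => hne h.symm)) hee
      set x := (v ∆ {e}) ∆ {e'} with hx
      have hjB : ∀ f ∈ B, Joins K x f q r := fun f hf => hj f (hc e he f hf).2.1
        (crs_swap_nonloop hC (hc e he f hf)) (crs_swap_nonloop hC (hc e' he' f hf))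
      have n1 : K.num (x ∆ B) + 2 = K.num x + B.card := by
        refine num_join hK ?_ ⟨f0, hf0⟩ ?_ ?_
        · intro f hf f' hf'
          have h3 : ∀ g ∈ B, (g ∈ x ↔ g ∈ v) := by
            intro g hg
            have g1 : g ≠ e := fun h => hAB e he g hg h.symm
            have g2 : g ≠ e' := fun h => hAB e' he' g hg h.symm
            simp [hx, Finset.mem_symmDiff, g1, g2]
          rw [h3 f hf, h3 f' hf']
          exact hm _ (Finset.mem_union_right _ hf) _ (Finset.mem_union_right _ hf')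
        · intro f hf hl
          rcases hjB f hf with ⟨a, b⟩ | ⟨a, b⟩
          · exact hqr (trans hC (symm hC a) (trans hC hl b))
          · exact hqr (trans hC (symm hC b) (trans hC (symm hC hl) a))
        · intro f hf f' hf'
          rcases hjB f hf with ⟨a, b⟩ | ⟨a, b⟩ <;> rcases hjB f' hf' with ⟨a', b'⟩ | ⟨a', b'⟩
          · exact Or.inl ⟨trans hC a (symm hC a'), trans hC b (symm hC b')⟩
          · exact Or.inr ⟨trans hC a (symm hC b'), trans hC b (symm hC a')⟩
          · exact Or.inr ⟨trans hC a (symm hC b'), trans hC b (symm hC a')⟩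
          · exact Or.inl ⟨trans hC a (symm hC a'), trans hC b (symm hC b')⟩
      have n2 := num_flip_loop hC (v := v) (c := e) (hc e he f0 hf0).1
      have n3 := num_flip_loop hC (loopA e he e' he' hne)
      have n4 := num_flip_nonloop hC (nonA e he)
      have n5 := num_flip_nonloop hC hcon
      have n6 : x ∆ B = ((v ∆ B) ∆ {e}) ∆ {e'} := by
        rw [hx]
        simp only [symmDiff_assoc]
        congr 1
        rw [symmDiff_comm ({e'} : Finset X) B, ← symmDiff_assoc, symmDiff_comm ({e} : Finset X) B,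
          symmDiff_assoc]
      unfold Cube.Spl at splB
      rw [n6] at n1
      rw [← hx] at n3
      omega
    have hU : v ∆ (A ∪ B) = (v ∆ B) ∆ A := by
      rw [sd_split v (H := B) (G := A ∪ B) Finset.subset_union_right]
      congr 1
      ext z
      simp only [Finset.mem_sdiff, Finset.mem_union]
      constructor
      · rintro ⟨h1 | h1, h2⟩
        · exact h1
        · exact absurd h1 h2
      · intro h1; exact ⟨Or.inl h1, Finset.disjoint_left.1 hd h1⟩
    have hfin : K.num ((v ∆ B) ∆ A) + 2 = K.num (v ∆ B) + A.card := by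
      refine num_join hK ?_ ⟨e0, he0⟩ nonA ?_
      · intro e he e' he'
        have h3 : ∀ g ∈ A, (g ∈ v ∆ B ↔ g ∈ v) := by
          intro g hg
          have g1 : g ∉ B := Finset.disjoint_left.1 hd hg
          simp [Finset.mem_symmDiff, g1]
        rw [h3 e he, h3 e' he']
        exact hm _ (Finset.mem_union_left _ he) _ (Finset.mem_union_left _ he')
      · intro e he e' he'
        by_cases hne : e = e'
        · subst hne; exact Or.inl ⟨refl hC _ _, refl hC _ _⟩
        · exact join_of_loop hC (nonA e' he') (nonA e he) (hpair e' he' e he (fun h => hne h.symm))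
    rw [hU, Finset.card_union_of_disjoint hd]
    unfold Cube.Spl at splB
    omega

theorem crs_symm (hK : K.IsSys eta) (s0 : Bool) : K.CrsP s0 := by
  classical
  have hC := hK.toIsCore
  intro v e f hm h
  by_cases hef : e = f
  · subst hef; exact h
  have hnl := crs_swap_nonloop hC h
  refine ⟨h.2.1, h.1, hnl, ?_⟩
  rw [← h.2.2.2]
  -- telescoping
  have nf : ¬ K.Loop (v ∆ {f}) f := hC.split _ _ h.2.1
  have ne : ¬ K.Loop (v ∆ {e}) e := hC.split _ _ h.1
  have hu : (v ∆ {f}) ∆ {e, f} = v ∆ {e} := by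
    have h1 : ({e, f} : Finset X) = insert f {e} := by
      ext z; simp only [Finset.mem_insert, Finset.mem_singleton]; tauto
    have h2 : f ∉ ({e} : Finset X) := by simp [Ne.symm hef]
    rw [h1, sd_insert _ _ h2, sd_cancel]
  have jf := join_of_loop hC ne hnl (by rw [sd_cancel]; exact h.2.1)
  have je := join_of_loop hC nf h.2.2.1 (by rw [sd_cancel]; exact h.1)
  have ht := hK.tele (v ∆ {f}) {e, f}
    (fun x => if K.same (v ∆ {e}) x (K.tail e) then (1 : ℤ) else 0) (by
      intro x y hxy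
      rw [hu] at hxy
      have : K.same (v ∆ {e}) x (K.tail e) ↔ K.same (v ∆ {e}) y (K.tail e) :=
        ⟨fun h => trans hC (symm hC hxy) h, fun h => trans hC hxy h⟩
      simp only [this]) (K.tail f)
  rw [Finset.sum_pair hef] at ht
  have t1 : K.same (v ∆ {e}) (K.tail e) (K.tail e) := refl hC _ _
  have t2 : ¬ K.same (v ∆ {e}) (K.head e) (K.tail e) := fun h => ne (symm hC h)
  have t3 : K.same (v ∆ {f}) (K.tail f) (K.tail f) := refl hC _ _
  have t4 : ¬ K.same (v ∆ {f}) (K.head f) (K.tail f) := fun h => nf (symm hC h)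
  have t5 : K.same (v ∆ {e}) (K.head f) (K.tail e) ↔ ¬ K.same (v ∆ {e}) (K.tail f) (K.tail e) := by
    constructor
    · intro h1 h2; exact hnl (trans hC h2 (symm hC h1))
    · intro h1
      rcases jf with ⟨a, _⟩ | ⟨_, b⟩
      · exact absurd a h1
      · exact b
  have t6 : K.same (v ∆ {f}) (K.head e) (K.tail f) ↔ ¬ K.same (v ∆ {f}) (K.tail e) (K.tail f) := by
    constructor
    · intro h1 h2; exact h.2.2.1 (trans hC h2 (symm hC h1))
    · intro h1
      rcases je with ⟨a, _⟩ | ⟨_, b⟩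
      · exact absurd a h1
      · exact b
  have hne := crs_ne hK hef hm h
  simp only [t1, t2, t3, t4, t5, t6, if_true, if_false] at ht
  by_cases a : K.same (v ∆ {f}) (K.tail e) (K.tail f) <;>
    by_cases b : K.same (v ∆ {e}) (K.tail f) (K.tail e) <;>
    simp only [a, b] at ht ⊢ <;>
    · revert ht hne
      cases eta e <;> cases eta f <;> simp

end G1
end Pool.Agent.helper20.Sz
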